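import Pool.Agent.Helper53_Sob.Chains

/-!
MP_60fe1d_an, module A3 (helper53): barycentric coordinates exist and are unique; almost every
point has a full flag.
-/

set_option autoImplicit false

open Set Filter Topology Metric MeasureTheory
open scoped ENNReal NNReal

namespace Pool.Agent.Helper53Sob

open Pool.Agent.Helper27Sob

variable {C : Set E}

theorem norm_sub_center_lt {F : Cell} {x : E} (hx : x ∈ F.inner) : ‖x - F.center‖ < F.len / 2 := by
  have hl := len_pos F
  rw [pi_norm_lt_iff (by linarith)]
  intro j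
  have := hx j
  rw [Pi.sub_apply, Real.norm_eq_abs]
  split_ifs at this with h
  · exact this
  · rw [this, sub_self, abs_zero]; linarith

theorem isBary_single {F : Cell} (hF : IsC C F) : IsBary C (Finsupp.single F 1) F.center := by
  have hsupp : ∀ G ∈ ((Finsupp.single F (1 : ℝ)).support : Set Cell), G = F := by
    intro G hG
    have := Finsupp.support_single_subset hG
    simpa using this
  refine ⟨⟨fun G hG => by rw [hsupp G hG]; exact hF, fun G hG H hH => Or.inl ?_⟩, fun G => ?_, ?_, ?_⟩
  · rw [hsupp G hG, hsupp H hH]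
  · by_cases h : F = G
    · subst h; simp
    · rw [Finsupp.single_eq_of_ne (Ne.symm h)]
  · rw [Finsupp.sum_single_index rfl]
  · rw [Finsupp.sum_single_index (h := fun (F : Cell) (a : ℝ) => a • F.center) (zero_smul _ _),
      one_smul]

/-- Adding a new top to barycentric coordinates. -/
theorem isBary_cone {F : Cell} (hF : IsC C F) {w : Cell →₀ ℝ} {x : E} (hw : IsBary C w x)
    (hlow : ∀ G ∈ w.support, G.dim < F.dim ∧ G.carrier ⊆ F.carrier) {r : ℝ} (hr0 : 0 ≤ r)
    (hr1 : r ≤ 1) : IsBary C (Finsupp.single F (1 - r) + r • w) ((1 - r) • F.center + r • x) ∧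
    ∀ G ∈ (Finsupp.single F (1 - r) + r • w).support, G = F ∨
      (G.dim < F.dim ∧ G.carrier ⊆ F.carrier) := by
  classical
  have hsupp : ∀ G ∈ (Finsupp.single F (1 - r) + r • w).support, G = F ∨ G ∈ w.support := by
    intro G hG
    rcases Finset.mem_union.1 (Finsupp.support_add hG) with h | h
    · left
      have := Finsupp.support_single_subset h
      simpa using this
    · right
      exact Finsupp.support_smul h
  refine ⟨⟨⟨?_, ?_⟩, ?_, ?_, ?_⟩, ?_⟩
  · intro G hG
    rcases hsupp G hG with h | h
    · rw [h]; exact hF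
    · exact hw.1.1 G h
  · intro G hG H hH
    rcases hsupp G hG with h | h <;> rcases hsupp H hH with h' | h'
    · left; rw [h, h']
    · right; right; rw [h]; exact hlow H h'
    · right; left; rw [h']; exact hlow G h
    · exact hw.1.2 G h H h'
  · intro G
    rw [Finsupp.add_apply, Finsupp.smul_apply, smul_eq_mul]
    refine add_nonneg ?_ (mul_nonneg hr0 (hw.2.1 G))
    by_cases h : F = G
    · subst h; rw [Finsupp.single_eq_same]; linarith
    · rw [Finsupp.single_eq_of_ne (Ne.symm h)]
  · rw [Finsupp.sum_add_index' (fun _ => rfl) (fun _ _ _ => rfl), Finsupp.sum_single_index rfl,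
      Finsupp.sum_smul_index (fun _ => rfl)]
    have := hw.2.2.1
    rw [Finsupp.sum, ← Finset.mul_sum]
    rw [Finsupp.sum] at this
    rw [this]; ring
  · rw [Finsupp.sum_add_index' (h := fun (F : Cell) (a : ℝ) => a • F.center)
      (fun _ => zero_smul _ _) (fun _ _ _ => add_smul _ _ _),
      Finsupp.sum_single_index (h := fun (F : Cell) (a : ℝ) => a • F.center) (zero_smul _ _),
      Finsupp.sum_smul_index (h := fun (F : Cell) (a : ℝ) => a • F.center)
      (fun _ => zero_smul _ _)]
    have := hw.2.2.2
    rw [Finsupp.sum] at this ⊢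
    simp only [mul_smul]
    rw [← Finset.smul_sum, this]
  · intro G hG
    rcases hsupp G hG with h | h
    · exact Or.inl h
    · exact Or.inr (hlow G h)

/-- Existence of barycentric coordinates. -/
theorem exists_bary (hA1 : ∀ x ∉ C, ∃ F, IsC C F ∧ x ∈ F.inner)
    (hA3 : ∀ F G x, IsC C F → IsC C G → x ∈ F.carrier → x ∈ G.inner →
      G.carrier ⊆ F.carrier ∧ (G = F ∨ G.dim < F.dim) ∧ (G.i = F.i ∨ G.i = F.i + 1))
    (hA4 : ∀ F, IsC C F → ∀ x ∈ F.carrier, ∀ c ∈ C, F.len ≤ ‖x - c‖) :
    ∀ (n : ℕ) (F : Cell), F.dim = n → IsC C F → ∀ x ∈ F.inner, ∃ w, IsBary C w x ∧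
      ∀ G ∈ w.support, G = F ∨ (G.dim < F.dim ∧ G.carrier ⊆ F.carrier) := by
  intro n
  induction n using Nat.strong_induction_on with
  | _ n ih =>
  intro F hFn hF x hx
  have hl := len_pos F
  by_cases hxc : x = F.center
  · refine ⟨Finsupp.single F 1, hxc ▸ isBary_single hF, fun G hG => Or.inl ?_⟩
    have := Finsupp.support_single_subset hG
    simpa using this
  · have hlt := norm_sub_center_lt hx
    have hpos : 0 < ‖x - F.center‖ := norm_pos_iff.2 (sub_ne_zero.2 hxc)
    obtain ⟨r, hr⟩ : ∃ r : ℝ, r = 2 * ‖x - F.center‖ / F.len := ⟨_, rfl⟩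
    have hr0 : 0 < r := by rw [hr]; positivity
    have hr1 : r < 1 := by rw [hr, div_lt_one hl]; linarith
    have hrn : r⁻¹ * ‖x - F.center‖ = F.len / 2 := by
      rw [hr]; field_simp
    obtain ⟨ω, hω⟩ : ∃ ω : E, ω = F.center + r⁻¹ • (x - F.center) := ⟨_, rfl⟩
    have hωc : ω - F.center = r⁻¹ • (x - F.center) := by rw [hω, add_sub_cancel_left]
    have hωn : ‖ω - F.center‖ = F.len / 2 := by
      rw [hωc, norm_smul, Real.norm_eq_abs, abs_of_pos (inv_pos.2 hr0), hrn]
    have hωin : ω ∈ F.carrier := by
      intro j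
      split_ifs with hj
      · rw [← hωn]
        exact norm_le_pi_norm (ω - F.center) j
      · have h1 := hx j
        rw [if_neg hj] at h1
        have h2 := congrFun hωc j
        simp only [Pi.sub_apply, Pi.smul_apply, smul_eq_mul, h1, sub_self, mul_zero] at h2
        rw [h2, abs_zero]
    have hωnot : ω ∉ F.inner := fun h => absurd (norm_sub_center_lt h) (by rw [hωn]; simp)
    have hωC : ω ∉ C := by
      intro h
      have := hA4 F hF ω hωin ω h
      rw [sub_self, norm_zero] at this
      linarith
    obtain ⟨G, hG, hωG⟩ := hA1 ω hωC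
    obtain ⟨hGF, hdim, -⟩ := hA3 F G ω hF hG hωin hωG
    have hdim' : G.dim < F.dim := by
      rcases hdim with h | h
      · exact absurd (h ▸ hωG) hωnot
      · exact h
    obtain ⟨w, hw, hwG⟩ := ih G.dim (hFn ▸ hdim') G rfl hG ω hωG
    have hlow : ∀ H ∈ w.support, H.dim < F.dim ∧ H.carrier ⊆ F.carrier := by
      intro H hH
      rcases hwG H hH with h | h
      · rw [h]; exact ⟨hdim', hGF⟩
      · exact ⟨h.1.trans hdim', h.2.trans hGF⟩
    have := isBary_cone hF hw hlow hr0.le hr1.le
    have hxe : (1 - r) • F.center + r • ω = x := by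
      rw [hω, smul_add, smul_smul, mul_inv_cancel₀ hr0.ne', one_smul, sub_smul, one_smul]
      abel
    rw [hxe] at this
    exact ⟨_, this⟩

/-- Removing the top. -/
theorem isBary_erase {w : Cell →₀ ℝ} {x : E} (hw : IsBary C w x) {T : Cell}
    (hT : T ∈ w.support) (h1 : w T < 1) : IsBary C ((1 - w T)⁻¹ • w.erase T)
      (T.center + (1 - w T)⁻¹ • (x - T.center)) := by
  classical
  have hpos : 0 < 1 - w T := by linarith
  have hsub : ((1 - w T)⁻¹ • w.erase T).support ⊆ w.support.erase T := by
    refine Finsupp.support_smul.trans ?_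
    rw [Finsupp.support_erase]
  refine ⟨isCh_mono hw.1 ?_, fun F => ?_, ?_, ?_⟩
  · intro F hF
    exact Finset.mem_of_mem_erase (hsub hF)
  · rw [Finsupp.smul_apply, smul_eq_mul, Finsupp.erase_apply]
    refine mul_nonneg (inv_pos.2 hpos).le ?_
    split_ifs
    · rfl
    · exact hw.2.1 F
  · rw [Finsupp.sum_of_support_subset _ hsub _ (fun _ _ => rfl)]
    have : ∑ F ∈ w.support.erase T, ((1 - w T)⁻¹ • w.erase T) F =
        ∑ F ∈ w.support.erase T, (1 - w T)⁻¹ * w F := by
      refine Finset.sum_congr rfl fun F hF => ?_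
      rw [Finsupp.smul_apply, smul_eq_mul, Finsupp.erase_ne (Finset.ne_of_mem_erase hF)]
    rw [this, ← Finset.mul_sum, sum_erase_top hw hT, inv_mul_cancel₀ hpos.ne']
  · rw [Finsupp.sum_of_support_subset _ hsub (fun (F : Cell) (a : ℝ) => a • F.center)
      (fun _ _ => zero_smul _ _)]
    have : ∑ F ∈ w.support.erase T, ((1 - w T)⁻¹ • w.erase T) F • F.center =
        ∑ F ∈ w.support.erase T, (1 - w T)⁻¹ • (w F • F.center) := by
      refine Finset.sum_congr rfl fun F hF => ?_
      rw [Finsupp.smul_apply, smul_eq_mul, Finsupp.erase_ne (Finset.ne_of_mem_erase hF), mul_smul]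
    rw [this, ← Finset.smul_sum]
    have hx := isBary_sum hw
    rw [← Finset.add_sum_erase _ _ hT] at hx
    have hx' : ∑ F ∈ w.support.erase T, w F • F.center = x - w T • T.center := by
      rw [← hx]; abel
    rw [hx']
    have h2 : (1 - w T)⁻¹ • (T.center - w T • T.center) = T.center := by
      have : T.center - w T • T.center = (1 - w T) • T.center := by rw [sub_smul, one_smul]
      rw [this, smul_smul, inv_mul_cancel₀ hpos.ne', one_smul]
    have h3 : x - w T • T.center = (T.center - w T • T.center) + (x - T.center) := by abel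
    rw [h3, smul_add, h2]

/-- Uniqueness of barycentric coordinates. -/
theorem bary_unique (hA2 : ∀ F G x, IsC C F → IsC C G → x ∈ F.inner → x ∈ G.inner → F = G) :
    ∀ (n : ℕ) (x : E) (w w' : Cell →₀ ℝ), w.support.card = n → IsBary C w x → IsBary C w' x →
      w = w' := by
  classical
  intro n
  induction n using Nat.strong_induction_on with
  | _ n ih =>
  intro x w w' hn hw hw'
  obtain ⟨T, hT, htop⟩ := isCh_exists_top hw.1 (isBary_support_nonempty hw)
  obtain ⟨T', hT', htop'⟩ := isCh_exists_top hw'.1 (isBary_support_nonempty hw')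
  have hTT : T = T' := hA2 T T' x (hw.1.1 T hT) (hw'.1.1 T' hT') (isBary_top hw hT (top_subset htop))
    (isBary_top hw' hT' (top_subset htop'))
  subst hTT
  have h1 := isBary_top_weight hA2 hw hT htop
  have h2 := isBary_top_weight hA2 hw' hT' htop'
  have hl := len_pos T
  have hww : w T = w' T := by
    rw [h1] at h2
    have := mul_right_cancel₀ (by positivity : T.len / 2 ≠ 0) h2
    linarith
  have hle : ∀ {w : Cell →₀ ℝ} {x : E}, IsBary C w x → T ∈ w.support → w T = 1 →
      w = Finsupp.single T 1 := by
    intro w x hw hT h1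
    have hs := sum_erase_top hw hT
    rw [h1, sub_self, Finset.sum_eq_zero_iff_of_nonneg (fun F _ => hw.2.1 F)] at hs
    ext F
    by_cases hF : F = T
    · subst hF; rw [h1, Finsupp.single_eq_same]
    · rw [Finsupp.single_eq_of_ne hF]
      by_cases hFs : F ∈ w.support
      · exact hs F (Finset.mem_erase.2 ⟨hF, hFs⟩)
      · exact Finsupp.notMem_support_iff.1 hFs
  have hw1 : w T ≤ 1 := by
    have := sum_erase_top hw hT
    have h2 : 0 ≤ ∑ F ∈ w.support.erase T, w F := Finset.sum_nonneg fun F _ => hw.2.1 F
    linarith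
  rcases eq_or_lt_of_le hw1 with heq | hlt
  · rw [hle hw hT heq, hle hw' hT' (hww ▸ heq)]
  · have hb := isBary_erase hw hT hlt
    have hb' := isBary_erase hw' hT' (hww ▸ hlt)
    rw [← hww] at hb'
    have hcard : ((1 - w T)⁻¹ • w.erase T).support.card < n := by
      refine lt_of_le_of_lt (Finset.card_le_card (Finsupp.support_smul)) ?_
      rw [Finsupp.support_erase, Finset.card_erase_of_mem hT, hn]
      have := Finset.card_pos.2 ⟨T, hT⟩
      omega
    have := ih _ hcard _ _ _ rfl hb hb'
    have hne : (1 - w T)⁻¹ ≠ 0 := inv_ne_zero (by linarith)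
    have h3 : w.erase T = w'.erase T := by
      have h4 := congrArg (fun u => (1 - w T) • u) this
      simp only [smul_smul] at h4
      rw [mul_inv_cancel₀ (by linarith : (1 : ℝ) - w T ≠ 0), one_smul, one_smul] at h4
      exact h4
    ext F
    by_cases hF : F = T
    · subst hF; exact hww
    · have := DFunLike.congr_fun h3 F
      rwa [Finsupp.erase_ne hF, Finsupp.erase_ne hF] at this

/-- The affine span of at most five points is a null set. -/
theorem volume_affineSpan_eq_zero (s : Finset Cell) (hs : s.card ≤ 5) :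
    volume (affineSpan ℝ (Cell.center '' (s : Set Cell)) : Set E) = 0 := by
  classical
  apply MeasureTheory.Measure.addHaar_affineSubspace
  intro htop
  have h1 : vectorSpan ℝ (Cell.center '' (s : Set Cell)) = ⊤ := by
    rw [← direction_affineSpan, htop, AffineSubspace.direction_top]
  rcases s.eq_empty_or_nonempty with he | hne
  · subst he
    rw [Finset.coe_empty, Set.image_empty, vectorSpan_empty] at h1
    exact bot_ne_top h1
  · have hcard : s.card = (s.card - 1) + 1 := by
      have := Finset.card_pos.2 hne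
      omega
    have h2 := finrank_vectorSpan_image_finset_le ℝ Cell.center s hcard
    have h3 : Cell.center '' (s : Set Cell) = ((s.image Cell.center : Finset E) : Set E) := by
      rw [Finset.coe_image]
    rw [h3] at h1
    rw [h1, finrank_top, Module.finrank_fin_fun] at h2
    omega

/-- A point with barycentric coordinates is in the affine span of the centres of the support. -/
theorem isBary_mem_affineSpan {w : Cell →₀ ℝ} {x : E} (hw : IsBary C w x) :
    x ∈ affineSpan ℝ (Cell.center '' (w.support : Set Cell)) := by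
  classical
  have h1 := isBary_sum_one hw
  have h2 := isBary_sum hw
  have h3 := affineCombination_mem_affineSpan_image (k := ℝ) (s := w.support)
    (w := fun F => w F) h1 (s' := (w.support : Set Cell)) (fun i _ hi => by simpa using hi)
    Cell.center
  rw [Finset.affineCombination_eq_linear_combination _ _ _ h1, h2] at h3
  exact h3

theorem dim_lt_six (F : Cell) : F.dim < 6 := by
  have : F.dim ≤ (Finset.univ : Finset (Fin 5)).card := Finset.card_filter_le _ _
  rw [Finset.card_univ, Fintype.card_fin] at this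
  omega

/-- A point whose barycentric coordinates have six terms is in the open simplex of a flag. -/
theorem exists_flag {w : Cell →₀ ℝ} {x : E} (hw : IsBary C w x) (hcard : 5 < w.support.card) :
    ∃ F, IsFlag C F ∧ x ∈ openSimplex F ∧ ∀ k, F k ∈ w.support := by
  classical
  have hinj : Function.Injective (fun F : w.support => (⟨F.1.dim, dim_lt_six F.1⟩ : Fin 6)) := by
    intro F G h
    simp only [Fin.mk.injEq] at h
    rcases hw.1.2 F.1 F.2 G.1 G.2 with h' | h' | h'
    · exact Subtype.ext h'
    · exact absurd h (ne_of_lt h'.1)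
    · exact absurd h (ne_of_gt h'.1)
  have hc6 : Fintype.card w.support = Fintype.card (Fin 6) := by
    rw [Fintype.card_coe, Fintype.card_fin]
    have := Fintype.card_le_of_injective _ hinj
    rw [Fintype.card_coe, Fintype.card_fin] at this
    omega
  have hbij := (Fintype.bijective_iff_injective_and_card _).2 ⟨hinj, hc6⟩
  obtain ⟨e, he⟩ : ∃ e : w.support ≃ Fin 6, ∀ F : w.support, e F = ⟨F.1.dim, dim_lt_six F.1⟩ :=
    ⟨Equiv.ofBijective _ hbij, fun F => rfl⟩
  have hdim : ∀ k : Fin 6, (e.symm k).1.dim = k := by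
    intro k
    have := he (e.symm k)
    rw [Equiv.apply_symm_apply] at this
    exact (congrArg Fin.val this).symm
  refine ⟨fun k => (e.symm k).1, ⟨fun k => ⟨hw.1.1 _ (e.symm k).2, hdim k⟩, ?_⟩, ?_, fun k =>
    (e.symm k).2⟩
  · intro k l hkl
    rcases hw.1.2 _ (e.symm k).2 _ (e.symm l).2 with h' | h' | h'
    · change (e.symm k).1.carrier ⊆ (e.symm l).1.carrier
      rw [h']
    · exact h'.2
    · have := h'.1
      rw [hdim, hdim] at this
      exact absurd (Fin.le_def.1 hkl) (not_le.2 this)
  · refine ⟨fun k => w (e.symm k).1, fun k => isBary_pos hw (e.symm k).2, ?_, ?_⟩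
    · rw [← isBary_sum_one hw, ← Finset.sum_coe_sort w.support]
      exact (e.symm.sum_comp (fun F : w.support => w F.1))
    · rw [← isBary_sum hw, ← Finset.sum_coe_sort w.support (fun F => w F • F.center)]
      exact (e.symm.sum_comp (fun F : w.support => w F.1 • F.1.center))

/-- Module A3. -/
theorem a3 (h1 : A1Statement) : A3Statement := by
  intro C hC
  obtain ⟨hA1, hA2, hA3, hA4, -, -⟩ := h1 C hC
  have hex : ∀ x ∉ C, ∃ w, IsBary C w x := by
    intro x hx
    obtain ⟨F, hF, hxF⟩ := hA1 x hx
    obtain ⟨w, hw, -⟩ := exists_bary hA1 hA3 hA4 F.dim F rfl hF x hxF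
    exact ⟨w, hw⟩
  refine ⟨hex, fun x w w' hw hw' => bary_unique hA2 _ x w w' rfl hw hw', ?_, ?_⟩
  · intro x w hw
    obtain ⟨T, hT, htop⟩ := isCh_exists_top hw.1 (isBary_support_nonempty hw)
    have hin := isBary_top hw hT (top_subset htop)
    refine ⟨fun hxC => ?_, T, hT, hin, top_subset htop⟩
    have := hA4 T (hw.1.1 T hT) x (inner_subset_carrier T hin) x hxC
    rw [sub_self, norm_zero] at this
    exact absurd (len_pos T) (not_lt.2 this)
  · have hnull : ∀ᵐ x : E, ∀ s : Finset Cell, s.card ≤ 5 →
        x ∉ (affineSpan ℝ (Cell.center '' (s : Set Cell)) : Set E) := by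
      rw [ae_all_iff]
      intro s
      by_cases hs : s.card ≤ 5
      · have := volume_affineSpan_eq_zero s hs
        filter_upwards [measure_eq_zero_iff_ae_notMem.1 this] with x hx _ using hx
      · exact Filter.Eventually.of_forall fun x h => absurd h hs
    filter_upwards [hnull] with x hx hxC
    obtain ⟨w, hw⟩ := hex x hxC
    have hcard : 5 < w.support.card := by
      by_contra hcon
      exact hx w.support (not_lt.1 hcon) (isBary_mem_affineSpan hw)
    obtain ⟨F, hF, hxF, -⟩ := exists_flag hw hcard
    exact ⟨F, hF, hxF⟩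

end Pool.Agent.Helper53Sob
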