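import Mathlib

/-!
MP_60fe1d_an, module A4 (helper53): a patching lemma for Lipschitz maps.
-/

set_option autoImplicit false

open Set Filter Topology Metric

namespace Pool.Agent.Helper53Sob

/-- A map on an interval which is `K`-Lipschitz on each of finitely many closed sets covering the
interval does not expand its length by more than `K`. -/
theorem lip_patch_real {Y ι : Type*} [PseudoMetricSpace Y] (g : ℝ → Y) (K : ℝ) (A : ι → Set ℝ) :
    ∀ (n : ℕ) (I : Finset ι), I.card = n → (∀ i ∈ I, IsClosed (A i)) →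
      (∀ i ∈ I, ∀ x ∈ A i, ∀ y ∈ A i, dist (g x) (g y) ≤ K * |x - y|) →
      ∀ a b, a ≤ b → Icc a b ⊆ ⋃ i ∈ I, A i → dist (g a) (g b) ≤ K * (b - a) := by
  classical
  intro n
  induction n with
  | zero =>
    intro I hI _ _ a b hab hcov
    rw [Finset.card_eq_zero] at hI
    subst hI
    have := hcov (left_mem_Icc.2 hab)
    simp at this
  | succ n ih =>
    intro I hI hA hL a b hab hcov
    obtain ⟨i, hi, hai⟩ : ∃ i ∈ I, a ∈ A i := by simpa using hcov (left_mem_Icc.2 hab)
    have hcomp : IsCompact (A i ∩ Icc a b) := isCompact_Icc.inter_left (hA i hi)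
    obtain ⟨t, ⟨htA, htI⟩, htmax⟩ := hcomp.exists_isGreatest ⟨a, hai, left_mem_Icc.2 hab⟩
    have h1 : dist (g a) (g t) ≤ K * (t - a) := by
      have := hL i hi a hai t htA
      rwa [abs_sub_comm, abs_of_nonneg (by linarith [htI.1])] at this
    rcases eq_or_lt_of_le htI.2 with htb | htb
    · rw [← htb]; exact h1
    · have hclosed : IsClosed (⋃ j ∈ I.erase i, A j) :=
        isClosed_biUnion_finset fun j hj => hA j (Finset.mem_of_mem_erase hj)
      have hsub : Ioc t b ⊆ ⋃ j ∈ I.erase i, A j := by
        intro u hu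
        obtain ⟨j, hj, huj⟩ : ∃ j ∈ I, u ∈ A j := by
          simpa using hcov ⟨htI.1.trans hu.1.le, hu.2⟩
        have hji : j ≠ i := by
          rintro rfl
          exact absurd (htmax ⟨huj, htI.1.trans hu.1.le, hu.2⟩) (not_le.2 hu.1)
        simp only [mem_iUnion]
        exact ⟨j, Finset.mem_erase.2 ⟨hji, hj⟩, huj⟩
      have hsub' : Icc t b ⊆ ⋃ j ∈ I.erase i, A j := by
        rw [← closure_Ioc htb.ne]
        exact closure_minimal hsub hclosed
      have hcard : (I.erase i).card = n := by
        rw [Finset.card_erase_of_mem hi, hI]; rfl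
      have h2 := ih (I.erase i) hcard (fun j hj => hA j (Finset.mem_of_mem_erase hj))
        (fun j hj => hL j (Finset.mem_of_mem_erase hj)) t b htb.le hsub'
      calc dist (g a) (g b) ≤ dist (g a) (g t) + dist (g t) (g b) := dist_triangle _ _ _
        _ ≤ K * (t - a) + K * (b - t) := add_le_add h1 h2
        _ = K * (b - a) := by ring

/-- The patching lemma on a segment. -/
theorem lip_patch_segment {X Y ι : Type*} [NormedAddCommGroup X] [NormedSpace ℝ X]
    [PseudoMetricSpace Y] (f : X → Y) (K : ℝ) (D : ι → Set X) (I : Finset ι)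
    (hD : ∀ i ∈ I, IsClosed (D i))
    (hL : ∀ i ∈ I, ∀ x ∈ D i, ∀ y ∈ D i, dist (f x) (f y) ≤ K * dist x y) (x y : X)
    (hcov : segment ℝ x y ⊆ ⋃ i ∈ I, D i) : dist (f x) (f y) ≤ K * dist x y := by
  have h := lip_patch_real (f ∘ AffineMap.lineMap x y) (K * dist x y)
    (fun i => (AffineMap.lineMap x y : ℝ → X) ⁻¹' (D i)) I.card I rfl
    (fun i hi => (hD i hi).preimage AffineMap.lineMap_continuous)
    (fun i hi s hs t ht => by
      have := hL i hi _ hs _ ht
      rw [dist_lineMap_lineMap, Real.dist_eq] at this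
      simp only [Function.comp_apply]
      linarith)
    0 1 zero_le_one (by
      rw [segment_eq_image_lineMap, image_subset_iff] at hcov
      simpa using hcov)
  simpa using h

end Pool.Agent.Helper53Sob
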