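import Pool.Agent.Helper53_Sob.A3
import Pool.Agent.Helper53_Sob.Patch

/-!
MP_60fe1d_an, module A4 (helper53): the squeezing map is a homeomorphism, locally Lipschitz off
`C`, and preserves the cells.
-/

set_option autoImplicit false

open Set Filter Topology Metric MeasureTheory
open scoped ENNReal NNReal

namespace Pool.Agent.Helper53Sob

open Pool.Agent.Helper27Sob

variable {C : Set E}

theorem lam_spec {x : E} (h : ∃ w, IsBary C w x) : IsBary C (lam C x) x := by
  classical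
  unfold lam
  rw [dif_pos h]
  exact h.choose_spec

theorem lam_eq (huniq : ∀ x w w', IsBary C w x → IsBary C w' x → w = w') {w : Cell →₀ ℝ} {x : E}
    (h : IsBary C w x) : lam C x = w := huniq x _ _ (lam_spec ⟨w, h⟩) h

theorem sq_of_mem {ε : Cell → ℝ} {x : E} (hx : x ∈ C) : sq C ε x = x := by
  classical
  unfold Helper27Sob.sq
  rw [if_pos hx]

/-- The formula for the squeezing map with respect to any finite set containing the support. -/
theorem sq_formula (huniq : ∀ x w w', IsBary C w x → IsBary C w' x → w = w') (ε : Cell → ℝ)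
    {w : Cell →₀ ℝ} {x : E} (hx : x ∉ C) (h : IsBary C w x) {s : Finset Cell}
    (hs : w.support ⊆ s) :
    sq C ε x = (∑ F ∈ s, ε F * w F)⁻¹ • ∑ F ∈ s, (ε F * w F) • F.center := by
  classical
  unfold Helper27Sob.sq
  rw [if_neg hx, lam_eq huniq h,
    Finsupp.sum_of_support_subset _ hs (fun F a => ε F * a) (fun _ _ => mul_zero _),
    Finsupp.sum_of_support_subset _ hs (fun F a => (ε F * a) • F.center)
      (fun _ _ => by rw [mul_zero, zero_smul])]

theorem isBary_sum_subset {w : Cell →₀ ℝ} {x : E} (h : IsBary C w x) {s : Finset Cell}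
    (hs : w.support ⊆ s) : ∑ F ∈ s, w F = 1 := by
  rw [← isBary_sum_one h]
  exact (Finset.sum_subset hs fun F _ hF => Finsupp.notMem_support_iff.1 hF).symm

theorem isBary_sum_smul_subset {w : Cell →₀ ℝ} {x : E} (h : IsBary C w x) {s : Finset Cell}
    (hs : w.support ⊆ s) : ∑ F ∈ s, w F • F.center = x := by
  rw [← isBary_sum h]
  exact (Finset.sum_subset hs fun F _ hF => by
    rw [Finsupp.notMem_support_iff.1 hF, zero_smul]).symm

theorem den_pos {ε : Cell → ℝ} (hε : ∀ F, 0 < ε F) {w : Cell →₀ ℝ} {x : E} (h : IsBary C w x) :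
    0 < ∑ F ∈ w.support, ε F * w F :=
  Finset.sum_pos (fun F hF => mul_pos (hε F) (isBary_pos h hF)) (isBary_support_nonempty h)

/-- The new barycentric coordinates. -/
noncomputable def scale (ε : Cell → ℝ) (w : Cell →₀ ℝ) : Cell →₀ ℝ :=
  Finsupp.onFinset w.support (fun F => (∑ G ∈ w.support, ε G * w G)⁻¹ * (ε F * w F)) (by
    intro F hF
    rw [Finsupp.mem_support_iff]
    intro h
    exact hF (by rw [h, mul_zero, mul_zero]))

theorem scale_apply (ε : Cell → ℝ) (w : Cell →₀ ℝ) (F : Cell) :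
    scale ε w F = (∑ G ∈ w.support, ε G * w G)⁻¹ * (ε F * w F) := rfl

theorem scale_support_subset (ε : Cell → ℝ) (w : Cell →₀ ℝ) : (scale ε w).support ⊆ w.support :=
  Finsupp.support_onFinset_subset

theorem isBary_scale (huniq : ∀ x w w', IsBary C w x → IsBary C w' x → w = w') {ε : Cell → ℝ}
    (hε : ∀ F, 0 < ε F) {w : Cell →₀ ℝ} {x : E} (hx : x ∉ C) (h : IsBary C w x) :
    IsBary C (scale ε w) (sq C ε x) := by
  have hS := den_pos hε h
  refine ⟨isCh_mono h.1 (by exact_mod_cast scale_support_subset ε w), fun F => ?_, ?_, ?_⟩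
  · rw [scale_apply]
    exact mul_nonneg (inv_pos.2 hS).le (mul_nonneg (hε F).le (h.2.1 F))
  · rw [Finsupp.sum_of_support_subset _ (scale_support_subset ε w) _ (fun _ _ => rfl)]
    simp only [scale_apply]
    rw [← Finset.mul_sum, inv_mul_cancel₀ hS.ne']
  · rw [Finsupp.sum_of_support_subset _ (scale_support_subset ε w)
      (fun (F : Cell) (a : ℝ) => a • F.center) (fun _ _ => zero_smul _ _),
      sq_formula huniq ε hx h (Finset.Subset.refl _)]
    simp only [scale_apply, mul_smul]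
    rw [← Finset.smul_sum]

/-- The inverse of the squeezing map. -/
theorem sq_sq (huniq : ∀ x w w', IsBary C w x → IsBary C w' x → w = w')
    (hex : ∀ x ∉ C, ∃ w, IsBary C w x) (hnot : ∀ x w, IsBary C w x → x ∉ C) {ε δ : Cell → ℝ}
    (hε : ∀ F, 0 < ε F) (hδ : ∀ F, δ F * ε F = 1) (x : E) : sq C δ (sq C ε x) = x := by
  by_cases hx : x ∈ C
  · rw [sq_of_mem hx, sq_of_mem hx]
  · obtain ⟨w, hw⟩ := hex x hx
    have hw' := isBary_scale huniq hε hx hw
    rw [sq_formula huniq δ (hnot _ _ hw') hw' (scale_support_subset ε w)]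
    have hS := den_pos hε hw
    have hkey : ∀ F, δ F * scale ε w F = (∑ G ∈ w.support, ε G * w G)⁻¹ * w F := by
      intro F
      rw [scale_apply]
      calc δ F * ((∑ G ∈ w.support, ε G * w G)⁻¹ * (ε F * w F))
          = (δ F * ε F) * ((∑ G ∈ w.support, ε G * w G)⁻¹ * w F) := by ring
        _ = _ := by rw [hδ, one_mul]
    simp only [hkey, mul_smul]
    rw [← Finset.mul_sum, ← Finset.smul_sum, isBary_sum_one hw, isBary_sum hw, mul_one, inv_inv,
      smul_smul, mul_inv_cancel₀ hS.ne', one_smul]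

/-- The squeezing map preserves the convex sets containing the centres of the support. -/
theorem sq_mem_convex (huniq : ∀ x w w', IsBary C w x → IsBary C w' x → w = w') {ε : Cell → ℝ}
    (hε : ∀ F, 0 < ε F) {w : Cell →₀ ℝ} {x : E} (hx : x ∉ C) (h : IsBary C w x) {S : Set E}
    (hS : Convex ℝ S) (hc : ∀ F ∈ w.support, F.center ∈ S) : sq C ε x ∈ S := by
  have hw' := isBary_scale huniq hε hx h
  rw [← isBary_sum_smul_subset hw' (scale_support_subset ε w)]
  exact hS.sum_mem (fun F _ => hw'.2.1 F) (isBary_sum_subset hw' (scale_support_subset ε w)) hc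

/-- The cell of a chain as a compact simplex. -/
def simp (s : Finset Cell) : Set E :=
  (fun w : s → ℝ => ∑ F : s, w F • F.1.center) '' stdSimplex ℝ s

theorem isCompact_simp (s : Finset Cell) : IsCompact (simp s) := by
  refine (isCompact_stdSimplex ℝ s).image ?_
  fun_prop

theorem mem_simp_of_isBary {w : Cell →₀ ℝ} {x : E} (h : IsBary C w x) {s : Finset Cell}
    (hs : w.support ⊆ s) : x ∈ simp s := by
  refine ⟨fun F => w F.1, ⟨fun F => h.2.1 F.1, ?_⟩, ?_⟩
  · rw [Finset.sum_coe_sort s (fun F => w F)]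
    exact isBary_sum_subset h hs
  · change ∑ F : s, w F.1 • F.1.center = x
    rw [Finset.sum_coe_sort s (fun F => w F • F.center)]
    exact isBary_sum_smul_subset h hs

theorem exists_bary_of_mem_simp {s : Finset Cell} (hs : IsCh C (s : Set Cell)) {x : E}
    (hx : x ∈ simp s) : ∃ w, IsBary C w x ∧ w.support ⊆ s := by
  classical
  obtain ⟨u, ⟨hu0, hu1⟩, rfl⟩ := hx
  have hsub : ∀ F, (if h : F ∈ s then u ⟨F, h⟩ else 0) ≠ 0 → F ∈ s := by
    intro F hF
    by_contra h
    exact hF (dif_neg h)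
  have hval : ∀ F : s, (Finsupp.onFinset s (fun F => if h : F ∈ s then u ⟨F, h⟩ else 0) hsub) F.1
      = u F := by
    intro F
    rw [Finsupp.onFinset_apply, dif_pos F.2]
  refine ⟨Finsupp.onFinset s (fun F => if h : F ∈ s then u ⟨F, h⟩ else 0) hsub,
    ⟨isCh_mono hs (by exact_mod_cast Finsupp.support_onFinset_subset), fun F => ?_, ?_, ?_⟩,
    Finsupp.support_onFinset_subset⟩
  · rw [Finsupp.onFinset_apply]
    split_ifs with h
    · exact hu0 _
    · rfl
  · rw [Finsupp.sum_of_support_subset _ Finsupp.support_onFinset_subset _ (fun _ _ => rfl),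
      ← Finset.sum_coe_sort s, ← hu1]
    exact Finset.sum_congr rfl fun F _ => hval F
  · rw [Finsupp.sum_of_support_subset _ Finsupp.support_onFinset_subset
      (fun (F : Cell) (a : ℝ) => a • F.center) (fun _ _ => zero_smul _ _),
      ← Finset.sum_coe_sort s]
    exact Finset.sum_congr rfl fun F _ => by rw [hval F]

/-- The squeezing map is Lipschitz on the simplex of a chain. -/
theorem sq_lipschitz_simp (hC : IsClosed C) (h2 : A2Statement)
    (huniq : ∀ x w w', IsBary C w x → IsBary C w' x → w = w')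
    (hnot : ∀ x w, IsBary C w x → x ∉ C) {ε : Cell → ℝ} (hε : ∀ F, 0 < ε F)
    {s : Finset Cell} (hs : IsCh C (s : Set Cell)) {m A : ℝ} (hm : 0 < m)
    (hmε : ∀ F ∈ s, m ≤ ε F) (hA : ∑ F ∈ s, ε F ≤ A) {x y : E} (hx : x ∈ simp s)
    (hy : y ∈ simp s) : dist (sq C ε x) (sq C ε y) ≤ (128 * A / m) * dist x y := by
  classical
  obtain ⟨w, hw, hws⟩ := exists_bary_of_mem_simp hs hx
  obtain ⟨u, hu, hus⟩ := exists_bary_of_mem_simp hs hy
  have hsne : s.Nonempty := (isBary_support_nonempty hw).mono hws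
  obtain ⟨T, hT, htop⟩ := isCh_exists_top hs hsne
  have htop' := top_subset htop
  have hl := len_pos T
  have hxC := hnot x w hw
  have hyC := hnot y u hu
  have hyT : sq C ε y ∈ T.carrier := sq_mem_convex huniq hε hyC hu (convex_carrier T)
    fun F hF => htop' F (hus hF) (center_mem_carrier F)
  -- the difference of the coordinates
  have hv0 : ∑ F ∈ s, (w F - u F) = 0 := by
    rw [Finset.sum_sub_distrib, isBary_sum_subset hw hws, isBary_sum_subset hu hus, sub_self]
  have hvc : ∑ F ∈ s, (w F - u F) • F.center = x - y := by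
    simp only [sub_smul]
    rw [Finset.sum_sub_distrib, isBary_sum_smul_subset hw hws, isBary_sum_smul_subset hu hus]
  have hv : ∀ F ∈ s, |w F - u F| ≤ 128 * ‖x - y‖ / T.len := by
    intro F hF
    rw [le_div_iff₀ hl, ← hvc]
    exact h2 C hC s hs T hT htop' (fun F => w F - u F) hv0 F hF
  have hdx : m ≤ ∑ F ∈ s, ε F * w F := by
    calc m = ∑ F ∈ s, m * w F := by rw [← Finset.mul_sum, isBary_sum_subset hw hws, mul_one]
      _ ≤ _ := Finset.sum_le_sum fun F hF => mul_le_mul_of_nonneg_right (hmε F hF) (hw.2.1 F)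
  have hdy : 0 < ∑ F ∈ s, ε F * u F := by
    refine lt_of_lt_of_le hm ?_
    calc m = ∑ F ∈ s, m * u F := by rw [← Finset.mul_sum, isBary_sum_subset hu hus, mul_one]
      _ ≤ _ := Finset.sum_le_sum fun F hF => mul_le_mul_of_nonneg_right (hmε F hF) (hu.2.1 F)
  have hdx0 : 0 < ∑ F ∈ s, ε F * w F := lt_of_lt_of_le hm hdx
  have hfx := sq_formula huniq ε hxC hw hws
  have hfy := sq_formula huniq ε hyC hu hus
  have hkey : sq C ε x - sq C ε y = (∑ F ∈ s, ε F * w F)⁻¹ •
      ∑ F ∈ s, (ε F * (w F - u F)) • (F.center - sq C ε y) := by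
    have e1 : ∑ F ∈ s, (ε F * u F) • (F.center - sq C ε y) = 0 := by
      simp only [smul_sub]
      rw [Finset.sum_sub_distrib, ← Finset.sum_smul]
      have : (∑ F ∈ s, ε F * u F) • sq C ε y = ∑ F ∈ s, (ε F * u F) • F.center := by
        rw [hfy, smul_smul, mul_inv_cancel₀ hdy.ne', one_smul]
      rw [this, sub_self]
    have e2 : ∑ F ∈ s, (ε F * w F) • (F.center - sq C ε y) =
        (∑ F ∈ s, ε F * w F) • (sq C ε x - sq C ε y) := by
      simp only [smul_sub]
      rw [Finset.sum_sub_distrib, ← Finset.sum_smul]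
      congr 1
      rw [hfx, smul_smul, mul_inv_cancel₀ hdx0.ne', one_smul]
    simp only [mul_sub, sub_smul (M := E) (R := ℝ)]
    rw [Finset.sum_sub_distrib, e1, e2, sub_zero, smul_smul, inv_mul_cancel₀ hdx0.ne', one_smul]
  rw [dist_eq_norm, dist_eq_norm, hkey, norm_smul, Real.norm_eq_abs,
    abs_of_pos (inv_pos.2 hdx0)]
  have hsum : ‖∑ F ∈ s, (ε F * (w F - u F)) • (F.center - sq C ε y)‖ ≤
      ∑ F ∈ s, ε F * (128 * ‖x - y‖) := by
    refine (norm_sum_le _ _).trans (Finset.sum_le_sum fun F hF => ?_)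
    rw [norm_smul, Real.norm_eq_abs, abs_mul, abs_of_pos (hε F), mul_assoc]
    refine mul_le_mul_of_nonneg_left ?_ (hε F).le
    calc |w F - u F| * ‖F.center - sq C ε y‖ ≤ (128 * ‖x - y‖ / T.len) * T.len :=
          mul_le_mul (hv F hF) (norm_sub_le_len (htop' F hF (center_mem_carrier F)) hyT)
            (norm_nonneg _) (by positivity)
      _ = 128 * ‖x - y‖ := div_mul_cancel₀ _ hl.ne'
  rw [← Finset.sum_mul] at hsum
  have hnn : 0 ≤ ‖x - y‖ := norm_nonneg _
  have hs0 : 0 ≤ ∑ F ∈ s, ε F := Finset.sum_nonneg fun F _ => (hε F).le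
  calc (∑ F ∈ s, ε F * w F)⁻¹ * ‖∑ F ∈ s, (ε F * (w F - u F)) • (F.center - sq C ε y)‖
      ≤ m⁻¹ * (A * (128 * ‖x - y‖)) := by
        refine mul_le_mul ?_ (hsum.trans ?_) (norm_nonneg _) (inv_pos.2 hm).le
        · exact inv_anti₀ hm hdx
        · exact mul_le_mul_of_nonneg_right hA (by positivity)
    _ = 128 * A / m * ‖x - y‖ := by ring

/-- The squeezing map is locally Lipschitz off `C`. -/
theorem sq_locLip (hC : IsClosed C) (h2 : A2Statement)
    (huniq : ∀ x w w', IsBary C w x → IsBary C w' x → w = w')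
    (hex : ∀ x ∉ C, ∃ w, IsBary C w x)
    (hnot : ∀ x w, IsBary C w x → x ∉ C)
    (hA4 : ∀ F, IsC C F → ∀ x ∈ F.carrier, ∀ c ∈ C, F.len ≤ ‖x - c‖)
    (hfin : ∀ K, IsCompact K → Disjoint K C → {F | IsC C F ∧ (F.carrier ∩ K).Nonempty}.Finite)
    {ε : Cell → ℝ} (hε : ∀ F, 0 < ε F) : LocLip (sq C ε) Cᶜ := by
  classical
  intro x₀ hx₀
  obtain ⟨r, hr, hball⟩ := Metric.isOpen_iff.1 hC.isOpen_compl x₀ hx₀
  have hB : closedBall x₀ (r / 2) ⊆ Cᶜ := (closedBall_subset_ball (by linarith)).trans hball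
  have hBc : IsCompact (closedBall x₀ (r / 2)) := isCompact_closedBall _ _
  have hfin1 := hfin _ hBc (disjoint_left.2 fun y hy => hB hy)
  have hKc : IsCompact (⋃ F ∈ {F | IsC C F ∧ (F.carrier ∩ closedBall x₀ (r / 2)).Nonempty},
      F.carrier) := hfin1.isCompact_biUnion fun F _ => isCompact_carrier F
  have hfin2 := hfin _ hKc (by
    rw [disjoint_left]
    intro y hy hyC
    simp only [mem_iUnion] at hy
    obtain ⟨F, hF, hyF⟩ := hy
    have := hA4 F hF.1 y hyF y hyC
    rw [sub_self, norm_zero] at this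
    exact absurd (len_pos F) (not_lt.2 this))
  obtain ⟨𝓕, h𝓕⟩ : ∃ 𝓕 : Finset Cell, 𝓕 = hfin2.toFinset := ⟨_, rfl⟩
  have hsupp : ∀ z ∈ closedBall x₀ (r / 2), ∀ w, IsBary C w z → w.support ⊆ 𝓕 := by
    intro z hz w hw F hF
    obtain ⟨T, hT, htop⟩ := isCh_exists_top hw.1 (isBary_support_nonempty hw)
    have hin := isBary_top hw hT (top_subset htop)
    rw [h𝓕, Set.Finite.mem_toFinset]
    refine ⟨hw.1.1 F hF, F.center, center_mem_carrier F, ?_⟩
    simp only [mem_iUnion]
    exact ⟨T, ⟨hw.1.1 T hT, z, inner_subset_carrier T hin, hz⟩,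
      top_subset htop F hF (center_mem_carrier F)⟩
  obtain ⟨m, hm, hmε⟩ : ∃ m > 0, ∀ F ∈ 𝓕, m ≤ ε F := by
    rcases 𝓕.eq_empty_or_nonempty with he | hne
    · exact ⟨1, one_pos, fun F hF => by rw [he] at hF; simp at hF⟩
    · obtain ⟨F, -, hmin⟩ := 𝓕.exists_min_image ε hne
      exact ⟨ε F, hε F, hmin⟩
  have hA0 : 0 ≤ 128 * (∑ F ∈ 𝓕, ε F) / m :=
    div_nonneg (mul_nonneg (by norm_num) (Finset.sum_nonneg fun F _ => (hε F).le)) hm.le
  refine ⟨r / 2, half_pos hr, ⟨128 * (∑ F ∈ 𝓕, ε F) / m, hA0⟩, ?_⟩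
  refine LipschitzOnWith.of_dist_le_mul fun x hx y hy => ?_
  change dist (sq C ε x) (sq C ε y) ≤ (128 * (∑ F ∈ 𝓕, ε F) / m) * dist x y
  refine lip_patch_segment (Helper27Sob.sq C ε) _ simp
    (𝓕.powerset.filter fun s : Finset Cell => IsCh C (s : Set Cell))
    (fun s _ => (isCompact_simp s).isClosed) (fun s hs x hx y hy => ?_) x y ?_
  · rw [Finset.mem_filter, Finset.mem_powerset] at hs
    exact sq_lipschitz_simp hC h2 huniq hnot hε hs.2 hm (fun F hF => hmε F (hs.1 hF))
      (Finset.sum_le_sum_of_subset_of_nonneg hs.1 fun F _ _ => (hε F).le) hx hy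
  · intro z hz
    have hzB : z ∈ closedBall x₀ (r / 2) :=
      ball_subset_closedBall ((convex_ball x₀ (r / 2)).segment_subset hx hy hz)
    obtain ⟨w, hw⟩ := hex z (hB hzB)
    have hws := hsupp z hzB w hw
    simp only [mem_iUnion, Finset.mem_filter, Finset.mem_powerset]
    exact ⟨w.support, ⟨hws, hw.1⟩, mem_simp_of_isBary hw (Finset.Subset.refl _)⟩

/-- Module A4. -/
theorem a4 (h1 : A1Statement) (h2 : A2Statement) : A4Statement := by
  intro C hC ε hε
  obtain ⟨-, -, hA3, hA4, hfin, -⟩ := h1 C hC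
  obtain ⟨hex, huniq, htop, -⟩ := a3 h1 C hC
  have hnot : ∀ x w, IsBary C w x → x ∉ C := fun x w hw => (htop x w hw).1
  have hcell : ∀ ε : Cell → ℝ, (∀ F, 0 < ε F) → ∀ F, IsC C F → ∀ x ∈ F.carrier,
      sq C ε x ∈ F.carrier := by
    intro ε hε F hF x hx
    have hxC : x ∉ C := by
      intro h
      have := hA4 F hF x hx x h
      rw [sub_self, norm_zero] at this
      exact absurd (len_pos F) (not_lt.2 this)
    obtain ⟨w, hw⟩ := hex x hxC
    obtain ⟨-, T, hT, hxT, hsub⟩ := htop x w hw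
    have hTF := (hA3 F T x hF (hw.1.1 T hT) hx hxT).1
    exact sq_mem_convex huniq hε hxC hw (convex_carrier F)
      fun G hG => hTF (hsub G hG (center_mem_carrier G))
  have hdist : ∀ ε : Cell → ℝ, (∀ F, 0 < ε F) → ∀ x, ∀ c ∈ C, ‖sq C ε x - x‖ ≤ ‖x - c‖ := by
    intro ε hε x c hc
    by_cases hx : x ∈ C
    · rw [sq_of_mem hx, sub_self, norm_zero]; exact norm_nonneg _
    · obtain ⟨w, hw⟩ := hex x hx
      obtain ⟨-, T, hT, hxT, hsub⟩ := htop x w hw
      have hxT' := inner_subset_carrier T hxT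
      exact (norm_sub_le_len (hcell ε hε T (hw.1.1 T hT) x hxT') hxT').trans
        (hA4 T (hw.1.1 T hT) x hxT' c hc)
  have hlip : ∀ ε : Cell → ℝ, (∀ F, 0 < ε F) → LocLip (sq C ε) Cᶜ := fun ε hε =>
    sq_locLip hC h2 huniq hex hnot hA4 hfin hε
  have hcont : ∀ ε : Cell → ℝ, (∀ F, 0 < ε F) → Continuous (sq C ε) := by
    intro ε hε
    rw [continuous_iff_continuousAt]
    intro x
    by_cases hx : x ∈ C
    · rw [Metric.continuousAt_iff]
      intro η hη
      refine ⟨η / 2, half_pos hη, fun {y} hy => ?_⟩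
      rw [sq_of_mem hx]
      have h1 := hdist ε hε y x hx
      rw [dist_eq_norm] at hy ⊢
      calc ‖sq C ε y - x‖ = ‖(sq C ε y - y) + (y - x)‖ := by congr 1; abel
        _ ≤ ‖sq C ε y - y‖ + ‖y - x‖ := norm_add_le _ _
        _ < η := by linarith
    · obtain ⟨r, hr, K, hK⟩ := hlip ε hε x hx
      exact (hK.continuousOn x (mem_ball_self hr)).continuousAt (ball_mem_nhds x hr)
  have hε' : ∀ F, 0 < (ε F)⁻¹ := fun F => inv_pos.2 (hε F)
  refine ⟨⟨⟨sq C ε, sq C fun F => (ε F)⁻¹, fun x => ?_, fun x => ?_⟩, hcont ε hε,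
    hcont _ hε'⟩, fun x => rfl, hlip ε hε, hcell ε hε⟩
  · exact sq_sq huniq hex hnot hε (fun F => inv_mul_cancel₀ (hε F).ne') x
  · exact sq_sq huniq hex hnot hε' (fun F => mul_inv_cancel₀ (hε F).ne') x

end Pool.Agent.Helper53Sob
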