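import Pool.Agent.Helper27_Sob.Statements

/-!
MP_60fe1d_an, module A3 (helper53), part 1: chains of cells, tops and facets.
-/

set_option autoImplicit false

open Set Filter Topology Metric MeasureTheory
open scoped ENNReal NNReal

namespace Pool.Agent.Helper53Sob

open Pool.Agent.Helper27Sob

theorem ell_pos (i : ℕ) : 0 < ell i := by unfold ell; positivity

theorem len_pos (F : Cell) : 0 < F.len := ell_pos _

instance : Countable Cell := by
  have : Function.Injective (fun F : Cell => (F.i, F.q)) := by
    intro F G h
    cases F; cases G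
    simp only [Prod.mk.injEq] at h
    obtain ⟨rfl, rfl⟩ := h
    rfl
  exact this.countable

theorem center_mem_carrier (F : Cell) : F.center ∈ F.carrier := by
  intro j
  have := len_pos F
  simp only [sub_self, abs_zero]
  split_ifs <;> positivity

theorem center_mem_inner (F : Cell) : F.center ∈ F.inner := by
  intro j
  have := len_pos F
  split_ifs
  · simp only [sub_self, abs_zero]; positivity
  · rfl

theorem inner_subset_carrier (F : Cell) : F.inner ⊆ F.carrier := by
  intro x hx j
  have := hx j
  split_ifs with h
  · rw [if_pos h] at this; exact this.le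
  · rw [if_neg h] at this; rw [this]; simp

theorem convex_carrier (F : Cell) : Convex ℝ F.carrier := by
  intro x hx y hy a b ha hb hab j
  have h1 := hx j
  have h2 := hy j
  have : (a • x + b • y) j - F.center j = a * (x j - F.center j) + b * (y j - F.center j) := by
    simp only [Pi.add_apply, Pi.smul_apply, smul_eq_mul]
    have : b = 1 - a := by linarith
    subst this; ring
  rw [this]
  calc |a * (x j - F.center j) + b * (y j - F.center j)|
      ≤ |a * (x j - F.center j)| + |b * (y j - F.center j)| := abs_add_le _ _
    _ = a * |x j - F.center j| + b * |y j - F.center j| := by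
        rw [abs_mul, abs_mul, abs_of_nonneg ha, abs_of_nonneg hb]
    _ ≤ a * (if Odd (F.q j) then F.len / 2 else 0) + b * (if Odd (F.q j) then F.len / 2 else 0) := by
        gcongr
    _ = _ := by rw [← add_mul, hab, one_mul]

/-- The diameter of a cell. -/
theorem norm_sub_le_len {F : Cell} {x y : E} (hx : x ∈ F.carrier) (hy : y ∈ F.carrier) :
    ‖x - y‖ ≤ F.len := by
  have hl := len_pos F
  rw [pi_norm_le_iff_of_nonneg hl.le]
  intro j
  have h1 := hx j
  have h2 := hy j
  have h3 : (if Odd (F.q j) then F.len / 2 else 0) ≤ F.len / 2 := by split_ifs <;> linarith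
  rw [Pi.sub_apply, Real.norm_eq_abs]
  have : x j - y j = (x j - F.center j) - (y j - F.center j) := by ring
  rw [this]
  calc |(x j - F.center j) - (y j - F.center j)| ≤ |x j - F.center j| + |y j - F.center j| :=
        abs_sub _ _
    _ ≤ F.len := by linarith

theorem isClosed_carrier (F : Cell) : IsClosed F.carrier := by
  have : F.carrier = ⋂ j, {x : E | |x j - F.center j| ≤ if Odd (F.q j) then F.len / 2 else 0} := by
    ext x; simp [Cell.carrier]
  rw [this]
  refine isClosed_iInter fun j => isClosed_le ?_ continuous_const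
  fun_prop

theorem isCompact_carrier (F : Cell) : IsCompact F.carrier := by
  refine Metric.isCompact_of_isClosed_isBounded (isClosed_carrier F) ?_
  refine (isBounded_closedBall (x := F.center) (r := F.len)).subset ?_
  intro x hx
  rw [mem_closedBall, dist_eq_norm]
  exact norm_sub_le_len hx (center_mem_carrier F)

/-- In a subcell the coordinates that are not free in the top cell are constant; a proper subcell
has a coordinate on the boundary of the top cell. -/
theorem fixed_of_subset {F G : Cell} (h : G.carrier ⊆ F.carrier) {j : Fin 5}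
    (hj : ¬ Odd (F.q j)) : G.center j = F.center j := by
  have := h (center_mem_carrier G) j
  rw [if_neg hj] at this
  have := abs_nonpos_iff.1 this
  linarith

/-- A point with one coordinate changed. -/
theorem update_mem_carrier {F : Cell} {x : E} (hx : x ∈ F.carrier) {j : Fin 5}
    (hj : Odd (F.q j)) {t : ℝ} (ht : |t - F.center j| ≤ F.len / 2) :
    Function.update x j t ∈ F.carrier := by
  intro k
  by_cases hk : k = j
  · subst hk; rw [Function.update_self, if_pos hj]; exact ht
  · rw [Function.update_of_ne hk]; exact hx k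

/-- If `G ⊆ F` and the centre of `G` is on the boundary of `F` in the free direction `j`
then `j` is not free in `G`. -/
theorem not_odd_of_boundary {F G : Cell} (h : G.carrier ⊆ F.carrier) {j : Fin 5}
    (hF : Odd (F.q j)) (hb : F.len / 2 ≤ |G.center j - F.center j|) : ¬ Odd (G.q j) := by
  intro hG
  have hl := len_pos G
  have h1 := h (update_mem_carrier (center_mem_carrier G) hG (t := G.center j + G.len / 2)
    (by rw [add_sub_cancel_left, abs_of_pos (by linarith)])) j
  have h2 := h (update_mem_carrier (center_mem_carrier G) hG (t := G.center j - G.len / 2)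
    (by rw [sub_sub_cancel_left, abs_neg, abs_of_pos (by linarith)])) j
  rw [Function.update_self, if_pos hF] at h1 h2
  rw [abs_le] at h1 h2
  rw [le_abs] at hb
  rcases hb with hb | hb <;> linarith [h1.1, h1.2, h2.1, h2.2]

section chains

variable {C : Set E}

theorem isCh_mono {s t : Set Cell} (hs : IsCh C s) (ht : t ⊆ s) : IsCh C t :=
  ⟨fun F hF => hs.1 F (ht hF), fun F hF G hG => hs.2 F (ht hF) G (ht hG)⟩

/-- A nonempty finite chain has a top. -/
theorem isCh_exists_top {s : Finset Cell} (hs : IsCh C (s : Set Cell)) (hne : s.Nonempty) :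
    ∃ T ∈ s, ∀ F ∈ s, F = T ∨ (F.dim < T.dim ∧ F.carrier ⊆ T.carrier) := by
  obtain ⟨T, hT, hmax⟩ := s.exists_max_image (fun F => F.dim) hne
  refine ⟨T, hT, fun F hF => ?_⟩
  rcases hs.2 F hF T hT with h | h | h
  · exact Or.inl h
  · exact Or.inr h
  · exact absurd (hmax F hF) (not_le.2 h.1)

theorem top_subset {s : Finset Cell} {T : Cell}
    (h : ∀ F ∈ s, F = T ∨ (F.dim < T.dim ∧ F.carrier ⊆ T.carrier)) :
    ∀ F ∈ s, F.carrier ⊆ T.carrier := by
  intro F hF
  rcases h F hF with h | h
  · rw [h]
  · exact h.2

/-- The facet fact: the centres of the cells of a chain other than the top lie on a facet of the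
top. -/
theorem isCh_facet (hA2 : ∀ F G x, IsC C F → IsC C G → x ∈ F.inner → x ∈ G.inner → F = G)
    {s : Finset Cell} (hs : IsCh C (s : Set Cell)) {T : Cell} (hT : T ∈ s)
    (htop : ∀ F ∈ s, F = T ∨ (F.dim < T.dim ∧ F.carrier ⊆ T.carrier)) :
    (∀ F ∈ s, F = T) ∨ ∃ j : Fin 5, Odd (T.q j) ∧ ∃ a : ℝ, |a| = T.len / 2 ∧
      ∀ F ∈ s, F ≠ T → ∀ x ∈ F.carrier, x j = T.center j + a := by
  classical
  by_cases hne : (s.erase T).Nonempty
  · right
    obtain ⟨T', hT', htop'⟩ := isCh_exists_top (isCh_mono hs (t := (s.erase T : Finset Cell))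
      (by simpa using Set.diff_subset)) hne
    have hT's : T' ∈ s := Finset.mem_of_mem_erase hT'
    have hT'T : T' ≠ T := Finset.ne_of_mem_erase hT'
    have hsub : T'.carrier ⊆ T.carrier := by
      rcases htop T' hT's with h | h
      · exact absurd h hT'T
      · exact h.2
    have hnot : T'.center ∉ T.inner := fun h =>
      hT'T (hA2 T' T _ (hs.1 _ hT's) (hs.1 _ hT) (center_mem_inner T') h)
    have hin := hsub (center_mem_carrier T')
    obtain ⟨j, hj⟩ : ∃ j, ¬ (if Odd (T.q j) then |T'.center j - T.center j| < T.len / 2
        else T'.center j = T.center j) := by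
      by_contra hcon
      push Not at hcon
      exact hnot hcon
    have hodd : Odd (T.q j) := by
      by_contra hodd
      rw [if_neg hodd] at hj
      exact hj (fixed_of_subset hsub hodd)
    rw [if_pos hodd, not_lt] at hj
    have hin' := hin j
    rw [if_pos hodd] at hin'
    refine ⟨j, hodd, T'.center j - T.center j, le_antisymm hin' hj, fun F hF hFT x hx => ?_⟩
    have hnotodd := not_odd_of_boundary hsub hodd hj
    have hxT' : x ∈ T'.carrier := by
      rcases htop' F (Finset.mem_erase.2 ⟨hFT, hF⟩) with h | h
      · rw [← h]; exact hx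
      · exact h.2 hx
    have := hxT' j
    rw [if_neg hnotodd] at this
    have := abs_nonpos_iff.1 this
    linarith
  · left
    intro F hF
    by_contra hFT
    exact hne ⟨F, Finset.mem_erase.2 ⟨hFT, hF⟩⟩

/-- `IsBary` as a sum over the support. -/
theorem isBary_sum_one {w : Cell →₀ ℝ} {x : E} (h : IsBary C w x) :
    ∑ F ∈ w.support, w F = 1 := h.2.2.1

theorem isBary_sum {w : Cell →₀ ℝ} {x : E} (h : IsBary C w x) :
    ∑ F ∈ w.support, w F • F.center = x := h.2.2.2

theorem isBary_support_nonempty {w : Cell →₀ ℝ} {x : E} (h : IsBary C w x) :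
    w.support.Nonempty := by
  by_contra hne
  rw [Finset.not_nonempty_iff_eq_empty] at hne
  have := isBary_sum_one h
  rw [hne, Finset.sum_empty] at this
  exact zero_ne_one this

theorem isBary_pos {w : Cell →₀ ℝ} {x : E} (h : IsBary C w x) {F : Cell} (hF : F ∈ w.support) :
    0 < w F := lt_of_le_of_ne (h.2.1 F) (Ne.symm (Finsupp.mem_support_iff.1 hF))

/-- The coordinates of a point relative to the centre of the top. -/
theorem isBary_sub {w : Cell →₀ ℝ} {x : E} (h : IsBary C w x) (T : Cell) (j : Fin 5) :
    x j - T.center j = ∑ F ∈ w.support, w F * (F.center j - T.center j) := by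
  have h1 := isBary_sum_one h
  have h2 := congrFun (isBary_sum h) j
  rw [Finset.sum_apply] at h2
  simp only [Pi.smul_apply, smul_eq_mul] at h2
  simp only [mul_sub, Finset.sum_sub_distrib, ← Finset.sum_mul, h1, one_mul, h2]

open Classical in
theorem sum_erase_top {w : Cell →₀ ℝ} {x : E} (h : IsBary C w x) {T : Cell}
    (hT : T ∈ w.support) : ∑ F ∈ w.support.erase T, w F = 1 - w T := by
  have := isBary_sum_one h
  rw [← Finset.add_sum_erase _ _ hT] at this
  linarith

/-- Part (iii) of A3: the top cell of the support contains the point. -/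
theorem isBary_top {w : Cell →₀ ℝ} {x : E} (h : IsBary C w x) {T : Cell} (hT : T ∈ w.support)
    (htop : ∀ F ∈ w.support, F.carrier ⊆ T.carrier) : x ∈ T.inner := by
  classical
  intro j
  have hl := len_pos T
  have hpos := isBary_pos h hT
  have hsub := isBary_sub h T j
  rw [← Finset.add_sum_erase _ _ hT, sub_self, mul_zero, zero_add] at hsub
  split_ifs with hj
  · rw [hsub]
    have hle : |∑ F ∈ w.support.erase T, w F * (F.center j - T.center j)| ≤
        ∑ F ∈ w.support.erase T, w F * (T.len / 2) := by
      refine (Finset.abs_sum_le_sum_abs _ _).trans (Finset.sum_le_sum fun F hF => ?_)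
      rw [abs_mul, abs_of_nonneg (h.2.1 F)]
      refine mul_le_mul_of_nonneg_left ?_ (h.2.1 F)
      have := htop F (Finset.mem_of_mem_erase hF) (center_mem_carrier F) j
      rwa [if_pos hj] at this
    rw [← Finset.sum_mul, sum_erase_top h hT] at hle
    nlinarith
  · rw [Finset.sum_eq_zero, sub_eq_zero] at hsub
    · exact hsub
    · intro F hF
      rw [fixed_of_subset (htop F (Finset.mem_of_mem_erase hF)) hj, sub_self, mul_zero]

/-- The weight of the top cell. -/
theorem isBary_top_weight
    (hA2 : ∀ F G x, IsC C F → IsC C G → x ∈ F.inner → x ∈ G.inner → F = G)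
    {w : Cell →₀ ℝ} {x : E} (h : IsBary C w x) {T : Cell} (hT : T ∈ w.support)
    (htop : ∀ F ∈ w.support, F = T ∨ (F.dim < T.dim ∧ F.carrier ⊆ T.carrier)) :
    ‖x - T.center‖ = (1 - w T) * (T.len / 2) := by
  classical
  have hl := len_pos T
  have hle1 : w T ≤ 1 := by
    have := sum_erase_top h hT
    have h2 : 0 ≤ ∑ F ∈ w.support.erase T, w F := Finset.sum_nonneg fun F _ => h.2.1 F
    linarith
  have hnn : 0 ≤ (1 - w T) * (T.len / 2) := mul_nonneg (by linarith) (by linarith)
  have hsub := fun j => isBary_sub h T j
  apply le_antisymm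
  · rw [pi_norm_le_iff_of_nonneg hnn]
    intro j
    rw [Pi.sub_apply, Real.norm_eq_abs, hsub j, ← Finset.add_sum_erase _ _ hT, sub_self, mul_zero,
      zero_add, ← sum_erase_top h hT, Finset.sum_mul]
    refine (Finset.abs_sum_le_sum_abs _ _).trans (Finset.sum_le_sum fun F hF => ?_)
    rw [abs_mul, abs_of_nonneg (h.2.1 F)]
    refine mul_le_mul_of_nonneg_left ?_ (h.2.1 F)
    refine (top_subset htop F (Finset.mem_of_mem_erase hF) (center_mem_carrier F) j).trans ?_
    split_ifs <;> linarith
  · rcases isCh_facet hA2 h.1 hT htop with hall | ⟨j, hj, a, ha, hfac⟩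
    · have : w.support.erase T = ∅ := by
        rw [Finset.eq_empty_iff_forall_notMem]
        intro F hF
        exact Finset.ne_of_mem_erase hF (hall F (Finset.mem_of_mem_erase hF))
      have h1 := sum_erase_top h hT
      rw [this, Finset.sum_empty] at h1
      rw [← h1, zero_mul]
      exact norm_nonneg _
    · refine le_trans ?_ (norm_le_pi_norm (x - T.center) j)
      rw [Pi.sub_apply, Real.norm_eq_abs, hsub j, ← Finset.add_sum_erase _ _ hT, sub_self,
        mul_zero, zero_add]
      have : ∑ F ∈ w.support.erase T, w F * (F.center j - T.center j) = (1 - w T) * a := by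
        rw [← sum_erase_top h hT, Finset.sum_mul]
        refine Finset.sum_congr rfl fun F hF => ?_
        rw [hfac F (Finset.mem_of_mem_erase hF) (Finset.ne_of_mem_erase hF) _
          (center_mem_carrier F), add_sub_cancel_left]
      rw [this, abs_mul, ha, abs_of_nonneg (by linarith)]

end chains

end Pool.Agent.Helper53Sob
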